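import Pool.Agent.P.MP_38a0b7_co.Upper
import Pool.Agent.P.MP_38a0b7_co.Lower

/-! The optimal bi-Lipschitz constant for random half-sized subsets of the cube is 3. -/

namespace Pool.Agent.Results.MP_38a0b7_co.OptimalConstant

open Filter Topology Pool.Agent.P.MP_38a0b7_co

/-- `C* = 3`: the least `C ≥ 1` with `p_n(C) → 1` is `3`, and `p_n(C) → 0` for every `C < 3`. -/
theorem result :
    IsLeast {C : ℝ | 1 ≤ C ∧ Tendsto (fun n => prob n C) atTop (𝓝 1)} 3 ∧
      ∀ C : ℝ, C < 3 → Tendsto (fun n => prob n C) atTop (𝓝 0) := by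
  refine ⟨⟨⟨by norm_num, upper le_rfl⟩, fun C hC => ?_⟩, fun C hC => lower hC⟩
  by_contra h
  exact zero_ne_one (tendsto_nhds_unique (lower (not_le.1 h)) hC.2)

end Pool.Agent.Results.MP_38a0b7_co.OptimalConstant
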